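import Mathlib
import Pool.Agent.Helper981.KP.ZY

/-!
# MP_7216ee_lc: the complete graph scenarios `K_n`, `n ≥ 5`, are not Shannon-complete

The Zhang–Yeung inequality contains two entropies of triples, `H(ACD)` and `H(BCD)`, both with the
same sign. Adding a fifth variable `E` and replacing `H(ACD)` by the smaller quantity
`H(AE) - [H(EC) + H(ED) - H(E) - H(CD)]` (and similarly for `H(BCD)`), one gets an inequality that
involves only single variables and pairs; it is violated by the polymatroid in which `E` is the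
join of `C` and `D`.
-/

set_option autoImplicit false

namespace Pool.Agent.Results.MP_7216ee_lc.CompleteGraphs

open Finset MeasureTheory

/-- `f` is a polymatroid on `[n]`. -/
def IsPolymatroid {n : ℕ} (f : Finset (Fin n) → ℝ) : Prop :=
  f ∅ = 0 ∧ (∀ S, 0 ≤ f S) ∧ (∀ S T, S ⊆ T → f S ≤ f T) ∧
    ∀ S T, f (S ∩ T) + f (S ∪ T) ≤ f S + f T

/-- `prob P A S v` is the probability that `A_i = v_i` for all `i ∈ S`. -/
noncomputable def prob {n : ℕ} {Ω : Type} [MeasurableSpace Ω] (P : Measure Ω)
    (A : Fin n → Ω → ℕ) (S : Finset (Fin n)) (v : {i // i ∈ S} → ℕ) : ℝ :=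
  P.real {ω | ∀ i : {i // i ∈ S}, A i ω = v i}

/-- `f` is entropic: there are random variables `A_i` on a probability space with values in the
countable set `ℕ` such that for every `S` the Shannon entropy (base 2) of `A_S` is finite and equal
to `f S`. -/
def IsEntropic {n : ℕ} (f : Finset (Fin n) → ℝ) : Prop :=
  ∃ (Ω : Type) (_ : MeasurableSpace Ω) (P : Measure Ω) (_ : IsProbabilityMeasure P)
    (A : Fin n → Ω → ℕ), (∀ i, Measurable (A i)) ∧
    ∀ S, Summable (fun v => Real.negMulLog (prob P A S v)) ∧
      f S = (∑' v, Real.negMulLog (prob P A S v)) / Real.log 2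

/-- The marginal scenario `M` is Shannon-complete: every linear inequality
`∑_{S ∈ M} c_S h(S) ≥ 0` which holds for all entropic polymatroids holds for all polymatroids. -/
def ShannonComplete {n : ℕ} (M : Finset (Finset (Fin n))) : Prop :=
  ∀ c : Finset (Fin n) → ℝ, (∀ h, IsEntropic h → 0 ≤ ∑ S ∈ M, c S * h S) →
    ∀ h, IsPolymatroid h → 0 ≤ ∑ S ∈ M, c S * h S

/-- The complete graph scenario: all sets with at most two elements. -/
def K (n : ℕ) : Finset (Finset (Fin n)) := univ.filter fun S => S.card ≤ 2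

open Pool.Agent.Helper981.KP

/-! ### Finite weights -/

section fin
variable {Ω : Type*} [Fintype Ω]

theorem HV_comp {k m : ℕ} (w : Ω → ℝ) (V : Fin m → Ω → ℕ) (e : Fin k → Fin m)
    (T : Finset (Fin k)) : HV w (fun j => V (e j)) T = HV w V (T.image e) := by
  unfold HV
  apply Hf_congr
  intro ω ω'
  rw [tup_eq_iff, tup_eq_iff]
  constructor
  · intro h i hi
    obtain ⟨j, hj, rfl⟩ := Finset.mem_image.1 hi
    exact h j hj
  · intro h j hj
    exact h (e j) (Finset.mem_image_of_mem e hj)

theorem HV_mono {m : ℕ} (w : Ω → ℝ) (hw : ∀ ω, 0 ≤ w ω) (V : Fin m → Ω → ℕ)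
    {T T' : Finset (Fin m)} (h : T ⊆ T') : HV w V T ≤ HV w V T' := by
  have e : T' = T' ∪ T := (Finset.union_eq_left.2 h).symm
  have := HV_submod w hw V T' T' T T' T' T' (by rw [Finset.union_self]; exact e) e e
  linarith

/-- the inequality for finite weights -/
theorem fin_ineq {n : ℕ} (w : Ω → ℝ) (hw : ∀ ω, 0 ≤ w ω) (V : Fin n → Ω → ℕ) (a b c d e : Fin n) :
    4 * HV w V {a, e} + HV w V {b, e} + 5 * HV w V {e} + HV w V {a} + HV w V {a, b} +
      2 * HV w V {c, d} + 2 * HV w V {c} + 2 * HV w V {d} ≤
    5 * HV w V {c, e} + 5 * HV w V {d, e} + 3 * HV w V {a, c} + 3 * HV w V {a, d} +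
      HV w V {b, c} + HV w V {b, d} := by
  have zy := zhang_yeung w hw (fun j => V (![a, b, c, d] j))
  simp only [HV_comp w V ![a, b, c, d]] at zy
  simp only [Finset.image_insert, Finset.image_singleton, Matrix.cons_val_zero,
    Matrix.cons_val_one, Matrix.cons_val] at zy
  have main : ∀ x : Fin n, HV w V {x, e} - (HV w V {c, e} + HV w V {d, e} - HV w V {e} -
      HV w V {c, d}) ≤ HV w V {x, c, d} := by
    intro x
    have s1 := HV_submod w hw V {c} {d} {e} {c, d, e} {c, e} {d, e}
      (by ext i; simp only [Finset.mem_union, Finset.mem_insert, Finset.mem_singleton]; tauto)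
      (by ext i; simp only [Finset.mem_union, Finset.mem_insert, Finset.mem_singleton])
      (by ext i; simp only [Finset.mem_union, Finset.mem_insert, Finset.mem_singleton])
    have s2 := HV_submod w hw V {x} {e} {c, d} {x, c, d, e} {x, c, d} {c, d, e}
      (by ext i; simp only [Finset.mem_union, Finset.mem_insert, Finset.mem_singleton]; tauto)
      (by ext i; simp only [Finset.mem_union, Finset.mem_insert, Finset.mem_singleton])
      (by ext i; simp only [Finset.mem_union, Finset.mem_insert, Finset.mem_singleton]; tauto)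
    have s3 := HV_mono w hw V (T := {x, e}) (T' := {x, c, d, e})
      (by intro i; simp only [Finset.mem_insert, Finset.mem_singleton]; tauto)
    linarith
  have m1 := main a
  have m2 := main b
  linarith

/-- the entropy as a sum over the values -/
theorem Hf_eq_tsum {β : Type*} [DecidableEq β] (w : Ω → ℝ) (g : Ω → β) :
    Hf w g = ∑' v, Real.negMulLog (∑ ω, if g ω = v then w ω else 0) := by
  classical
  rw [tsum_eq_sum (s := univ.image g)]
  · unfold Hf
    rw [← Finset.sum_fiberwise_of_maps_to (s := univ) (t := univ.image g) (g := g)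
      (fun ω _ => Finset.mem_image_of_mem g (Finset.mem_univ ω))]
    refine Finset.sum_congr rfl fun v _ => ?_
    rw [Real.negMulLog, ← Finset.sum_filter, neg_mul, ← mul_neg, Finset.sum_mul]
    refine Finset.sum_congr rfl fun ω hω => ?_
    rw [Finset.mem_filter] at hω
    unfold mg
    rw [hω.2, Finset.sum_filter]
  · intro v hv
    have : (∑ ω, if g ω = v then w ω else 0) = 0 := by
      refine Finset.sum_eq_zero fun ω _ => ?_
      rw [if_neg]
      rintro rfl
      exact hv (Finset.mem_image_of_mem g (Finset.mem_univ ω))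
    rw [this]; simp

end fin

/-! ### The limit -/

theorem negMulLog_le {x y : ℝ} (hx : 0 ≤ x) (hxy : x ≤ y) (hy : y ≤ 1) :
    Real.negMulLog x ≤ Real.negMulLog y + y := by
  rcases (hx.trans hxy).eq_or_lt with h0 | h0
  · have : x = 0 := le_antisymm (h0 ▸ hxy) hx
    rw [this, ← h0]; simp
  · have h1 : x = (x / y) * y := by field_simp
    have h2 : 0 ≤ x / y := div_nonneg hx h0.le
    have h3 : x / y ≤ 1 := (div_le_one h0).2 hxy
    rw [h1, Real.negMulLog_mul]
    have h4 := Real.negMulLog_le_one_sub_self h2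
    have h5 := Real.negMulLog_nonneg h0.le hy
    have h6 : y * Real.negMulLog (x / y) ≤ y * 1 :=
      mul_le_mul_of_nonneg_left (by linarith) h0.le
    have h7 : x / y * Real.negMulLog y ≤ 1 * Real.negMulLog y :=
      mul_le_mul_of_nonneg_right h3 h5
    linarith

section limit
variable {n : ℕ} {Ω : Type} [MeasurableSpace Ω] (P : Measure Ω) [IsProbabilityMeasure P]

/-- probabilities of events depending on a discrete variable -/
theorem hasSum_real {β : Type} [Countable β] (X : Ω → β) (hX : ∀ x, MeasurableSet (X ⁻¹' {x}))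
    (Q : β → Prop) [DecidablePred Q] :
    HasSum (fun x => if Q x then P.real (X ⁻¹' {x}) else 0) (P.real {ω | Q (X ω)}) := by
  have h1 : {ω | Q (X ω)} = ⋃ x : β, (if Q x then X ⁻¹' {x} else ∅) := by
    ext ω
    simp only [Set.mem_iUnion]
    constructor
    · intro h
      refine ⟨X ω, ?_⟩
      have h' : Q (X ω) := h
      rw [if_pos h']
      exact rfl
    · rintro ⟨x, hx⟩
      by_cases hQ : Q x
      · rw [if_pos hQ] at hx
        have : X ω = x := hx
        change Q (X ω)
        rw [this]; exact hQ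
      · rw [if_neg hQ] at hx; exact absurd hx (Set.notMem_empty _)
  have hm : ∀ x : β, MeasurableSet (if Q x then X ⁻¹' {x} else ∅) := by
    intro x
    split_ifs
    · exact hX x
    · exact MeasurableSet.empty
  have hd : Pairwise (Function.onFun Disjoint
      (fun x : β => (if Q x then X ⁻¹' {x} else ∅ : Set Ω))) := by
    intro x y hxy
    rw [Function.onFun, Set.disjoint_left]
    intro ω hx hy
    apply hxy
    by_cases hQ : Q x
    · by_cases hQ' : Q y
      · rw [if_pos hQ] at hx
        rw [if_pos hQ'] at hy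
        have h2 : X ω = x := hx
        have h3 : X ω = y := hy
        rw [← h2, ← h3]
      · rw [if_neg hQ'] at hy; exact absurd hy (Set.notMem_empty _)
    · rw [if_neg hQ] at hx; exact absurd hx (Set.notMem_empty _)
  have h2 := measure_iUnion (μ := P) hd hm
  rw [← h1] at h2
  have h3 : ∑' x : β, P (if Q x then X ⁻¹' {x} else ∅) ≠ ⊤ := by
    rw [← h2]; exact measure_ne_top _ _
  have h4 := ENNReal.hasSum_toReal h3
  rw [← ENNReal.tsum_toReal_eq (fun a => measure_ne_top _ _), ← h2] at h4
  have h5 : (fun x : β => (P (if Q x then X ⁻¹' {x} else ∅)).toReal) =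
      fun x => if Q x then P.real (X ⁻¹' {x}) else 0 := by
    funext x
    by_cases h : Q x
    · rw [if_pos h, if_pos h]; rfl
    · rw [if_neg h, if_neg h]; simp
  rw [h5] at h4
  exact h4

variable (A : Fin n → Ω → ℕ)

/-- the joint law -/
noncomputable def law (x : Fin n → ℕ) : ℝ := P.real ((fun ω i => A i ω) ⁻¹' {x})

omit [IsProbabilityMeasure P] in
theorem prob_eq (S : Finset (Fin n)) (v : {i // i ∈ S} → ℕ) :
    prob P A S v = P.real ((fun ω (i : {i // i ∈ S}) => A i ω) ⁻¹' {v}) := by
  unfold prob
  congr 1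
  ext ω
  constructor
  · intro h; exact funext h
  · intro h i; exact congrFun h i

theorem meas_pre (hA : ∀ i, Measurable (A i)) (S : Finset (Fin n)) (v : {i // i ∈ S} → ℕ) :
    MeasurableSet ((fun ω (i : {i // i ∈ S}) => A i ω) ⁻¹' {v}) := by
  have : (fun ω (i : {i // i ∈ S}) => A i ω) ⁻¹' {v} = ⋂ i : {i // i ∈ S}, (A i) ⁻¹' {v i} := by
    ext ω
    simp only [Set.mem_preimage, Set.mem_singleton_iff, Set.mem_iInter]
    exact funext_iff
  rw [this]
  exact MeasurableSet.iInter fun i => hA i (measurableSet_singleton _)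

theorem meas_pre' (hA : ∀ i, Measurable (A i)) (v : Fin n → ℕ) :
    MeasurableSet ((fun ω (i : Fin n) => A i ω) ⁻¹' {v}) := by
  have : (fun ω (i : Fin n) => A i ω) ⁻¹' {v} = ⋂ i : Fin n, (A i) ⁻¹' {v i} := by
    ext ω
    simp only [Set.mem_preimage, Set.mem_singleton_iff, Set.mem_iInter]
    exact funext_iff
  rw [this]
  exact MeasurableSet.iInter fun i => hA i (measurableSet_singleton _)

/-- entropies of the truncated law -/
noncomputable def HF (F : Finset (Fin n → ℕ)) (T : Finset (Fin n)) : ℝ :=
  HV (Ω := {x // x ∈ F}) (fun x => law P A x.1) (fun i x => x.1 i) T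

theorem HF_tendsto (hA : ∀ i, Measurable (A i)) (T : Finset (Fin n))
    (hT : Summable (fun v => Real.negMulLog (prob P A T v))) :
    Filter.Tendsto (fun F => HF P A F T) Filter.atTop
      (nhds (∑' v, Real.negMulLog (prob P A T v))) := by
  classical
  -- restriction
  obtain ⟨r, hr⟩ : ∃ r : (Fin n → ℕ) → ({i // i ∈ T} → ℕ), r = fun x i => x i.1 := ⟨_, rfl⟩
  have hHF : ∀ F, HF P A F T =
      ∑' v, Real.negMulLog (∑ x ∈ F, if r x = v then law P A x else 0) := by
    intro F
    unfold HF
    rw [HV_eq _ _ T (fun x : {x // x ∈ F} => r x.1) (by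
      intro x y
      rw [hr, funext_iff]
      constructor
      · intro h i hi; exact h ⟨i, hi⟩
      · intro h i; exact h i.1 i.2), Hf_eq_tsum]
    refine tsum_congr fun v => ?_
    congr 1
    exact Finset.sum_coe_sort F (fun x => if r x = v then law P A x else 0)
  simp only [hHF]
  have hlaw : ∀ v, HasSum (fun x => if r x = v then law P A x else 0) (prob P A T v) := by
    intro v
    have h := hasSum_real P (fun ω (i : Fin n) => A i ω) (meas_pre' A hA) (fun x => r x = v)
    have e : {ω | r (fun i => A i ω) = v} = {ω | ∀ i : {i // i ∈ T}, A i ω = v i} := by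
      ext ω
      rw [hr]
      exact funext_iff
    unfold prob
    rw [← e]
    exact h
  have hnn : ∀ x, 0 ≤ law P A x := fun x => measureReal_nonneg
  have hsp : Summable (fun v => prob P A T v) := by
    have h := (hasSum_real P (fun ω (i : {i // i ∈ T}) => A i ω) (meas_pre A hA T)
      (fun _ => True)).summable
    refine h.congr fun v => ?_
    rw [if_pos trivial, prob_eq]
  have hle : ∀ F : Finset (Fin n → ℕ), ∀ v, ∑ x ∈ F, (if r x = v then law P A x else 0) ≤
      prob P A T v := by
    intro F v
    exact sum_le_hasSum F (fun x _ => by split_ifs <;> simp [hnn]) (hlaw v)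
  have hge : ∀ F : Finset (Fin n → ℕ), ∀ v, 0 ≤ ∑ x ∈ F, (if r x = v then law P A x else 0) := by
    intro F v
    exact Finset.sum_nonneg fun x _ => by split_ifs <;> simp [hnn]
  have hp1 : ∀ v, prob P A T v ≤ 1 := fun v => measureReal_le_one
  refine tendsto_tsum_of_dominated_convergence (hT.add hsp) ?_ ?_
  · intro v
    exact (Real.continuous_negMulLog.tendsto _).comp (hlaw v)
  · refine Filter.Eventually.of_forall fun F v => ?_
    rw [Real.norm_eq_abs, abs_of_nonneg (Real.negMulLog_nonneg (hge F v) ((hle F v).trans (hp1 v)))]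
    exact negMulLog_le (hge F v) (hle F v) (hp1 v)

end limit

/-- the inequality for entropic functions -/
theorem entropic_ineq {n : ℕ} {h : Finset (Fin n) → ℝ} (hh : IsEntropic h) (a b c d e : Fin n) :
    4 * h {a, e} + h {b, e} + 5 * h {e} + h {a} + h {a, b} +
      2 * h {c, d} + 2 * h {c} + 2 * h {d} ≤
    5 * h {c, e} + 5 * h {d, e} + 3 * h {a, c} + 3 * h {a, d} + h {b, c} + h {b, d} := by
  obtain ⟨Ω, mΩ, P, hP, A, hA, hS⟩ := hh
  have hl : 0 < Real.log 2 := Real.log_pos (by norm_num)
  have lim : ∀ T, Filter.Tendsto (fun F => HF P A F T) Filter.atTop (nhds (h T * Real.log 2)) := by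
    intro T
    have := HF_tendsto P A hA T (hS T).1
    rw [(hS T).2, div_mul_cancel₀ _ hl.ne']
    exact this
  have fin : ∀ F, 4 * HF P A F {a, e} + HF P A F {b, e} + 5 * HF P A F {e} + HF P A F {a} +
      HF P A F {a, b} + 2 * HF P A F {c, d} + 2 * HF P A F {c} + 2 * HF P A F {d} ≤
    5 * HF P A F {c, e} + 5 * HF P A F {d, e} + 3 * HF P A F {a, c} + 3 * HF P A F {a, d} +
      HF P A F {b, c} + HF P A F {b, d} := by
    intro F
    exact fin_ineq _ (fun x => measureReal_nonneg) _ a b c d e
  have l1 := ((lim {a, e}).const_mul 4).add (lim {b, e}) |>.add ((lim {e}).const_mul 5)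
    |>.add (lim {a}) |>.add (lim {a, b}) |>.add ((lim {c, d}).const_mul 2)
    |>.add ((lim {c}).const_mul 2) |>.add ((lim {d}).const_mul 2)
  have l2 := ((lim {c, e}).const_mul 5).add ((lim {d, e}).const_mul 5)
    |>.add ((lim {a, c}).const_mul 3) |>.add ((lim {a, d}).const_mul 3)
    |>.add (lim {b, c}) |>.add (lim {b, d})
  have := le_of_tendsto_of_tendsto' l1 l2 fin
  have h2 : (4 * h {a, e} + h {b, e} + 5 * h {e} + h {a} + h {a, b} +
      2 * h {c, d} + 2 * h {c} + 2 * h {d}) * Real.log 2 ≤
    (5 * h {c, e} + 5 * h {d, e} + 3 * h {a, c} + 3 * h {a, d} + h {b, c} + h {b, d}) *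
      Real.log 2 := by linarith
  exact le_of_mul_le_mul_right h2 hl

/-! ### The polymatroid -/

/-- the function of Vámos type with the join of the third and fourth element added -/
def vam (a b c d e : Bool) : ℕ :=
  let c' := c || e
  let d' := d || e
  let s := a.toNat + b.toNat + c'.toNat + d'.toNat
  if s = 0 then 0 else if s = 1 then 2 else if s = 2 then
    (if a = true ∧ b = true then 4 else 3) else 4

theorem vam_mono' : ∀ p q r d c p' q' r' d' c' : Bool,
    ((!p || p') && (!q || q') && (!r || r') && (!d || d') && (!c || c')) = true →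
    vam p q r d c ≤ vam p' q' r' d' c' := by
  decide

theorem vam_mono (p q r d c p' q' r' d' c' : Bool) (h1 : p = true → p' = true)
    (h2 : q = true → q' = true) (h3 : r = true → r' = true) (h4 : d = true → d' = true)
    (h5 : c = true → c' = true) :
    vam p q r d c ≤ vam p' q' r' d' c' := by
  apply vam_mono'
  revert h1 h2 h3 h4 h5
  cases p <;> cases p' <;> cases q <;> cases q' <;> cases r <;> cases r' <;> cases d <;> cases d' <;>
    cases c <;> cases c' <;> simp

theorem vam_sub : ∀ p q r d c p' q' r' d' c' : Bool,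
    vam (p && p') (q && q') (r && r') (d && d') (c && c') +
    vam (p || p') (q || q') (r || r') (d || d') (c || c') ≤
      vam p q r d c + vam p' q' r' d' c' := by
  decide

theorem vam_poly {n : ℕ} (a b c d e : Fin n) : IsPolymatroid (fun T : Finset (Fin n) =>
    (vam (decide (a ∈ T)) (decide (b ∈ T)) (decide (c ∈ T)) (decide (d ∈ T)) (decide (e ∈ T)) :
      ℝ)) := by
  refine ⟨by simp [vam], fun _ => Nat.cast_nonneg _, ?_, ?_⟩
  · intro S T h
    have h1 := vam_mono (decide (a ∈ S)) (decide (b ∈ S))
      (decide (c ∈ S)) (decide (d ∈ S)) (decide (e ∈ S)) (decide (a ∈ T)) (decide (b ∈ T))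
      (decide (c ∈ T)) (decide (d ∈ T)) (decide (e ∈ T)) (by simpa using fun h' => h h')
      (by simpa using fun h' => h h') (by simpa using fun h' => h h')
      (by simpa using fun h' => h h') (by simpa using fun h' => h h')
    exact Nat.cast_le.2 h1
  · intro S T
    have h1 := vam_sub (decide (a ∈ S)) (decide (b ∈ S))
      (decide (c ∈ S)) (decide (d ∈ S)) (decide (e ∈ S)) (decide (a ∈ T)) (decide (b ∈ T))
      (decide (c ∈ T)) (decide (d ∈ T)) (decide (e ∈ T))
    have e1 : ∀ i, (decide (i ∈ S) || decide (i ∈ T)) = decide (i ∈ S ∪ T) := by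
      intro i; simp [Finset.mem_union]
    have e2 : ∀ i, (decide (i ∈ S) && decide (i ∈ T)) = decide (i ∈ S ∩ T) := by
      intro i; simp [Finset.mem_inter]
    simp only [e1, e2] at h1
    have h2 := (Nat.cast_le (α := ℝ)).2 h1
    rw [Nat.cast_add, Nat.cast_add] at h2
    exact h2

/-- the coefficients of the inequality -/
def coef {n : ℕ} (a b c d e : Fin n) : List (ℝ × Finset (Fin n)) :=
  [(-4, {a, e}), (-1, {b, e}), (-5, {e}), (-1, {a}), (-1, {a, b}), (-2, {c, d}), (-2, {c}),
    (-2, {d}), (5, {c, e}), (5, {d, e}), (3, {a, c}), (3, {a, d}), (1, {b, c}), (1, {b, d})]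

theorem sum_coef {n : ℕ} (L : List (ℝ × Finset (Fin n))) (hL : ∀ q ∈ L, q.2 ∈ K n)
    (h : Finset (Fin n) → ℝ) :
    ∑ S ∈ K n, (L.map fun q => if S = q.2 then q.1 else 0).sum * h S =
      (L.map fun q => q.1 * h q.2).sum := by
  induction L with
  | nil => simp
  | cons q L ih =>
    simp only [List.map_cons, List.sum_cons, add_mul, Finset.sum_add_distrib]
    rw [ih (fun q' hq' => hL q' (List.mem_cons_of_mem _ hq'))]
    congr 1
    simp only [ite_mul, zero_mul]
    rw [Finset.sum_ite_eq', if_pos (hL q List.mem_cons_self)]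

/-- **The complete graph scenarios with at least five vertices are not Shannon-complete.** -/
theorem result : ∀ n : ℕ, 5 ≤ n → ¬ ShannonComplete (K n) := by
  intro n hn hcon
  obtain ⟨a, ha⟩ : ∃ a : Fin n, a.val = 0 := ⟨⟨0, by omega⟩, rfl⟩
  obtain ⟨b, hb⟩ : ∃ a : Fin n, a.val = 1 := ⟨⟨1, by omega⟩, rfl⟩
  obtain ⟨c, hc⟩ : ∃ a : Fin n, a.val = 2 := ⟨⟨2, by omega⟩, rfl⟩
  obtain ⟨d, hd⟩ : ∃ a : Fin n, a.val = 3 := ⟨⟨3, by omega⟩, rfl⟩
  obtain ⟨e, he⟩ : ∃ a : Fin n, a.val = 4 := ⟨⟨4, by omega⟩, rfl⟩
  have hL : ∀ q ∈ coef a b c d e, q.2 ∈ K n := by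
    have h2 : ∀ x y : Fin n, ({x, y} : Finset (Fin n)) ∈ K n := fun x y => by
      rw [K, Finset.mem_filter]; exact ⟨Finset.mem_univ _, Finset.card_le_two⟩
    have h1 : ∀ x : Fin n, ({x} : Finset (Fin n)) ∈ K n := fun x => by
      rw [K, Finset.mem_filter]; simp
    intro q hq
    simp only [coef, List.mem_cons, List.not_mem_nil, or_false] at hq
    rcases hq with h | h | h | h | h | h | h | h | h | h | h | h | h | h <;> rw [h] <;>
      first | exact h2 _ _ | exact h1 _
  have h := hcon (fun S => ((coef a b c d e).map fun q => if S = q.2 then q.1 else 0).sum)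
    (fun h hh => by
      rw [sum_coef _ hL]
      have := entropic_ineq hh a b c d e
      simp only [coef, List.map_cons, List.map_nil, List.sum_cons, List.sum_nil]
      linarith) _ (vam_poly a b c d e)
  rw [sum_coef _ hL] at h
  have nab : a ≠ b := fun h => by rw [h] at ha; omega
  have nac : a ≠ c := fun h => by rw [h] at ha; omega
  have nad : a ≠ d := fun h => by rw [h] at ha; omega
  have nae : a ≠ e := fun h => by rw [h] at ha; omega
  have nbc : b ≠ c := fun h => by rw [h] at hb; omega
  have nbd : b ≠ d := fun h => by rw [h] at hb; omega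
  have nbe : b ≠ e := fun h => by rw [h] at hb; omega
  have ncd : c ≠ d := fun h => by rw [h] at hc; omega
  have nce : c ≠ e := fun h => by rw [h] at hc; omega
  have nde : d ≠ e := fun h => by rw [h] at hd; omega
  simp only [coef, List.map_cons, List.map_nil, List.sum_cons, List.sum_nil] at h
  simp [vam, nab, nac, nad, nae, nbc, nbd, nbe, ncd, nce, nde, nab.symm, nac.symm, nad.symm,
    nae.symm, nbc.symm, nbd.symm, nbe.symm, ncd.symm, nce.symm, nde.symm] at h
  norm_num at h

end Pool.Agent.Results.MP_7216ee_lc.CompleteGraphs
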